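import Pool.Agent.OntoPHP.Final2

/-! MP_a24eb1_lc, own theorem. The chain bound of `Pool/Agent/OntoPHP/ChainMain.lean` with explicit
numbers (the proof is the one there). -/

set_option autoImplicit false
set_option linter.unusedSectionVars false
set_option linter.unusedVariables false

namespace Pool.Agent.OntoPHP

open Finset MvPolynomial Classical

/-- explicit chain length -/
def LL : ℕ → ℕ → ℕ
  | 0, _ => 1
  | K + 1, q => ((K + 1) * ((q + 2 * (K + 1)) + K)) * LL K (q + 2 * (K + 1)) +
      ((K + 1) * ((q + 2 * (K + 1)) + K)) * LL K (q + 2 * (K + 1)) + (2 * (K + 1)) ^ (K + 1)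

/-- explicit size threshold -/
def NN : ℕ → ℕ → ℕ
  | 0, _ => 0
  | K + 1, q => max (NN K (q + 2 * (K + 1))) (q + 3 * (K + 1))

section

variable {F : Type} [Field F]

/-- Chains of invariant subspaces of functions on `K`-tuples have bounded length. -/
theorem chain_bound_explicit (K : ℕ) : ∀ q : ℕ, ∀ (F : Type) [Field F] (C : Type) [Fintype C]
    (χ : C → Bool) (Q : Finset C), Q.card ≤ q →
    (∀ b, NN K q ≤ (Finset.univ.filter (fun x => χ x = b)).card) →
    ∀ c : ℕ → Submodule F ((Fin K → C) → F), Monotone c → (∀ n, Inv χ Q (c n)) →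
    ∀ n, jumps c n ≤ LL K q := by
  induction K with
  | zero =>
    intro q F _ C _ χ Q _ _ c hc _ n
    refine le_trans (jumps_le_finrank hc n) ?_
    simp [LL]
  | succ K ih =>
    intro q F _ C _ χ Q hQ hn c hc hI n
    have hL' := ih (q + 2 * (K + 1))
    rw [LL]
    simp only [NN] at hn
    set L' := LL K (q + 2 * (K + 1))
    set n' := NN K (q + 2 * (K + 1))
    obtain ⟨ζ, hζ1, hζ2, hζ3⟩ := exists_fresh χ Q (K + 1) (fun b => by
      have := hn b
      have := le_max_right n' (q + 3 * (K + 1))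
      omega)
    let Q' : Finset C := Q ∪ Finset.univ.image (fun x : Bool × Fin (K + 1) => ζ x.1 x.2)
    have hQ' : Q'.card ≤ q + 2 * (K + 1) := by
      refine le_trans (Finset.card_union_le _ _) ?_
      have : (Finset.univ.image (fun x : Bool × Fin (K + 1) => ζ x.1 x.2)).card ≤ 2 * (K + 1) := by
        refine le_trans Finset.card_image_le ?_
        simp
      omega
    have hQQ : Q ⊆ Q' := Finset.subset_union_left
    have hζ4 : ∀ b t, ζ b t ∈ Q' := fun b t =>
      Finset.mem_union_right _ (Finset.mem_image.mpr ⟨(b, t), Finset.mem_univ _, rfl⟩)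
    obtain ⟨ρ, hρ1, hρ2, hρ3⟩ := exists_fresh χ Q' (K + 1) (fun b => by
      have := hn b
      have := le_max_right n' (q + 3 * (K + 1))
      omega)
    have hL'' := hL' F C χ Q' hQ' (fun b => le_trans (le_max_left _ _) (hn b))
    have hRb : ∀ π, Grp χ Q' π → ∀ u : (Fin (K + 1) → C) → F, act π (Rb Q' u) = Rb Q' (act π u) := by
      intro π hπ u
      ext i
      simp only [act_apply, Rb, LinearMap.coe_mk, AddHom.coe_mk, good_act hπ i]
    have j1 : jumps (fun n => (c n).map (Rb Q')) n ≤ ((K + 1) * ((q + 2 * (K + 1)) + K)) * L' := by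
      apply bad_chain (χ := χ) (Q := Q') hQ' hL''
      · intro a b hab; exact Submodule.map_mono (hc hab)
      · intro m; exact inv_map ((hI m).mono hQQ) _ hRb
      · rintro m _ ⟨u, _, rfl⟩ i hi
        simp [Rb, hi]
    have j2 : jumps (fun n => c n ⊓ Vb F (K + 1) Q') n ≤
        ((K + 1) * ((q + 2 * (K + 1)) + K)) * L' := by
      apply bad_chain (χ := χ) (Q := Q') hQ' hL''
      · intro a b hab; exact inf_le_inf_right _ (hc hab)
      · intro m; exact ((hI m).mono hQQ).inf (inv_Vb χ Q')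
      · intro m; exact inf_le_right
    have j3 : jumps (fun n => (c n ⊓ Vg F (K + 1) Q').map (ev ρ)) n ≤
        (2 * (K + 1)) ^ (K + 1) := by
      refine le_trans (jumps_le_finrank ?_ n) ?_
      · intro a b hab; exact Submodule.map_mono (inf_le_inf_right _ (hc hab))
      · simp
    refine le_trans (jumps_le_add (a := fun n => ((c n).map (Rb Q'), c n ⊓ Vb F (K + 1) Q'))
      (b := fun n => (c n ⊓ Vg F (K + 1) Q').map (ev ρ)) ?_ n) ?_
    · intro m e1 e2
      rw [Prod.mk.injEq] at e1
      exact core_step hQQ hζ1 hζ2 hζ3 hζ4 hρ1 hρ2 hρ3 (hc (Nat.le_succ m)) (hI m) (hI (m + 1))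
        e1.1 e1.2 e2
    · apply add_le_add _ j3
      refine le_trans (jumps_le_add (a := fun n => (c n).map (Rb Q'))
        (b := fun n => c n ⊓ Vb F (K + 1) Q') ?_ n) (add_le_add j1 j2)
      intro m e1 e2
      exact Prod.ext e1 e2

end

theorem LL_le (s B : ℕ) (K : ℕ) : ∀ q, q + K * (K + 1) ≤ s → 2 * K * s ≤ B → 2 * K ≤ B →
    LL K q ≤ (K + 1) * B ^ K := by
  induction K with
  | zero => intro q _ _ _; simp [LL]
  | succ K ih =>
    intro q hs hB hB2
    rw [LL]
    have h1 : LL K (q + 2 * (K + 1)) ≤ (K + 1) * B ^ K := by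
      apply ih
      · nlinarith
      · nlinarith
      · omega
    have h2 : 2 * ((K + 1) * ((q + 2 * (K + 1)) + K)) ≤ B := by
      have : q + 2 * (K + 1) + K ≤ s := by nlinarith [Nat.zero_le (K * K), sq_nonneg K]
      calc 2 * ((K + 1) * ((q + 2 * (K + 1)) + K)) ≤ 2 * ((K + 1) * s) := by gcongr
        _ ≤ B := by linarith
    have h3 : (2 * (K + 1)) ^ (K + 1) ≤ B ^ (K + 1) := Nat.pow_le_pow_left hB2 _
    calc _ = (2 * ((K + 1) * ((q + 2 * (K + 1)) + K))) * LL K (q + 2 * (K + 1)) +
          (2 * (K + 1)) ^ (K + 1) := by ring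
      _ ≤ B * ((K + 1) * B ^ K) + B ^ (K + 1) := by gcongr
      _ = (K + 1 + 1) * B ^ (K + 1) := by ring

theorem NN_le (s : ℕ) (K : ℕ) : ∀ q, q + K * (K + 1) ≤ s → NN K q ≤ s + 1 := by
  induction K with
  | zero => intro q _; simp [NN]
  | succ K ih =>
    intro q hs
    rw [NN]
    refine max_le (ih _ (by nlinarith)) ?_
    nlinarith [Nat.zero_le (K * K)]

end Pool.Agent.OntoPHP
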