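import Pool.Agent.OntoQ.Bound

/-! MP_a24eb1_lc, own theorem. The lower bound with explicit numbers (proofs as in
`Pool/Agent/OntoPHP/Final2.lean` and `Main.lean`). -/

set_option autoImplicit false
set_option linter.unusedSectionVars false
set_option linter.unusedVariables false

namespace Pool.Agent.OntoPHP

open Finset MvPolynomial

/-- The closure process stabilises after a bounded number of steps. -/
theorem closure_stable_explicit (d : ℕ) (hd : 2 ≤ d) (F : Type) [Field F] (A B : Type)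
    [Fintype A] [DecidableEq A] [Fintype B] [DecidableEq B]
    (hA : max (NN (d * 2) 0) 1 ≤ Fintype.card A) (hB : max (NN (d * 2) 0) 1 ≤ Fintype.card B) :
    ∃ m, m ≤ LL (d * 2) 0 ∧ Vc A B F d m = Vc A B F d (m + 1) := by
  have h := chain_bound_explicit (d * 2) 0
  have : Nonempty A := Fintype.card_pos_iff.mp (lt_of_lt_of_le Nat.one_pos
    (le_trans (le_max_right _ _) hA))
  have hj := h F (A ⊕ B) (fun x => x.isLeft) ∅ (by simp) (by
    intro b
    rcases b with _ | _
    · have : (Finset.univ.filter (fun x : A ⊕ B => x.isLeft = false)) =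
          Finset.univ.map Function.Embedding.inr := by
        ext x; rcases x with a | b <;> simp
      rw [this, Finset.card_map, Finset.card_univ]
      exact le_trans (le_max_left _ _) hB
    · have : (Finset.univ.filter (fun x : A ⊕ B => x.isLeft = true)) =
          Finset.univ.map Function.Embedding.inl := by
        ext x; rcases x with a | b <;> simp
      rw [this, Finset.card_map, Finset.card_univ]
      exact le_trans (le_max_left _ _) hA)
    (fun k => (Vc A B F d k).comap (Phi A B F d))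
    (fun a b hab => Submodule.comap_mono (Vc_mono d hab))
    (fun k => inv_comap d k)
  obtain ⟨m, hm, he⟩ := exists_stable hj
  refine ⟨m, hm, ?_⟩
  have hr : ∀ k, Vc A B F d k ≤ LinearMap.range (Phi A B F d) := fun k =>
    le_trans (Vc_degree hd k) (range_Phi d)
  have h1 := Submodule.map_comap_eq_of_le (hr m)
  have h2 := Submodule.map_comap_eq_of_le (hr (m + 1))
  rw [← h1, ← h2]
  exact congrArg (Submodule.map (Phi A B F d)) he

/-- explicit threshold for the designs -/
def DT (p : ℕ) : ℕ → ℕ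
  | 0 => 0
  | d + 1 => (p + 2) * DT p d + 1

theorem DT_lt (p d : ℕ) : DT p d + 1 ≤ (p + 2) ^ d := by
  induction d with
  | zero => simp [DT]
  | succ d ih =>
    rw [DT, pow_succ]
    nlinarith

theorem ex_all_explicit {p : ℕ} (hp1 : 1 ≤ p) (F : Type) [Field F] (hp : (p : F) = 0) :
    ∀ d, Ex F p d (DT p d) := by
  intro d
  induction d with
  | zero =>
    intro A B _ _ _ _ c _ _
    refine ⟨fun S => if S = ∅ then 1 else 0, ⟨by simp, ?_, ?_, ?_⟩⟩
    · intro S hS
      by_cases h : S = ∅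
      · subst h
        exact ⟨by intro e he; simp at he, by intro e he; simp at he⟩
      · simp [h] at hS
    · intro S hS; omega
    · intro S hS; omega
  | succ d ih => exact ex_step hp hp1 ih

theorem main_explicit (p : ℕ) (hp1 : 1 ≤ p) (d : ℕ) (hd : 2 ≤ d) (m n c : ℕ)
    (hm : m = n + p ^ (LL (d * 2) 0 + 1) * c) (h1 : max (NN (d * 2) 0) 1 ≤ n)
    (h2 : DT p (LL (d * 2) 0 + 1) ≤ n) (F : Type) [Field F] (hF : (p : F) = 0) :
    ∃ k, Vc (Fin m) (Fin n) F d k = Vc (Fin m) (Fin n) F d (k + 1) ∧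
      (1 : MvPolynomial (Fin m × Fin n) F) ∉ Vc (Fin m) (Fin n) F d k := by
  have hnm : n ≤ m := by rw [hm]; exact Nat.le_add_right _ _
  obtain ⟨k, hk, hst⟩ := closure_stable_explicit d hd F (Fin m) (Fin n)
    (by rw [Fintype.card_fin]; omega) (by rw [Fintype.card_fin]; omega)
  refine ⟨k, hst, ?_⟩
  obtain ⟨φ, hφ⟩ := ex_all_explicit hp1 F hF (LL (d * 2) 0 + 1) (Fin m) (Fin n) c
    (by rw [Fintype.card_fin, Fintype.card_fin]; exact hm) (by rw [Fintype.card_fin]; exact h2)
  intro h1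
  have := Lf_vanish hφ k 1 h1 0 (by simp; omega)
  rw [mul_one, Lf_monomial, Finsupp.support_zero, hφ.one] at this
  exact one_ne_zero this

/-- the explicit exponent -/
theorem exponent_bound (d : ℕ) (hd : 2 ≤ d) : LL (d * 2) 0 + 1 ≤ (48 * d ^ 3) ^ (2 * d) := by
  have h1 : LL (d * 2) 0 ≤ (d * 2 + 1) * (24 * d ^ 3) ^ (d * 2) := by
    apply LL_le (d * 2 * (d * 2 + 1)) (24 * d ^ 3) (d * 2) 0
    · omega
    · nlinarith [sq_nonneg d, mul_pos (show 0 < d by omega) (show 0 < d by omega)]
    · nlinarith [sq_nonneg d, mul_pos (show 0 < d by omega) (show 0 < d by omega)]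
  have h2 : d * 2 + 2 ≤ 2 ^ (d * 2) := by
    have : ∀ e, 2 ≤ e → e * 2 + 2 ≤ 2 ^ (e * 2) := by
      intro e he
      induction e, he using Nat.le_induction with
      | base => norm_num
      | succ e he ih =>
        rw [show (e + 1) * 2 = e * 2 + 2 by ring, pow_add]
        omega
    exact this d hd
  have h3 : 1 ≤ (24 * d ^ 3) ^ (d * 2) := Nat.one_le_pow _ _ (by positivity)
  calc LL (d * 2) 0 + 1 ≤ (d * 2 + 1) * (24 * d ^ 3) ^ (d * 2) + (24 * d ^ 3) ^ (d * 2) := by omega
    _ = (d * 2 + 2) * (24 * d ^ 3) ^ (d * 2) := by ring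
    _ ≤ 2 ^ (d * 2) * (24 * d ^ 3) ^ (d * 2) := Nat.mul_le_mul_right _ h2
    _ = (48 * d ^ 3) ^ (2 * d) := by rw [← mul_pow, mul_comm d 2]; congr 1; ring

theorem NN_bound (d : ℕ) (hd : 2 ≤ d) : max (NN (d * 2) 0) 1 ≤ (48 * d ^ 3) ^ (2 * d) := by
  have h1 : NN (d * 2) 0 ≤ d * 2 * (d * 2 + 1) + 1 := NN_le _ _ _ (by omega)
  have h4 : 48 * d ^ 3 ≤ (48 * d ^ 3) ^ (2 * d) := Nat.le_self_pow (by omega) _
  have h5 : d * 2 * (d * 2 + 1) + 1 ≤ 48 * d ^ 3 := by
    nlinarith [sq_nonneg d, mul_pos (show 0 < d by omega) (show 0 < d by omega)]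
  omega

end Pool.Agent.OntoPHP
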