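import Mathlib

/-! MP_a24eb1_lc, own theorem. The upper bound: low degree refutations. -/

set_option autoImplicit false

namespace Pool.Agent.OntoQ

open Finset MvPolynomial
open scoped Classical

/-- Elementary symmetric polynomials of the fibre sums. -/
theorem esymm_fib {V A R : Type} [Fintype V] [DecidableEq V] [Fintype A] [DecidableEq A]
    [CommRing R] (π : V → A) (x : V → R) (s : ℕ) :
    ∑ I ∈ powersetCard s (univ : Finset A), ∏ a ∈ I, ∑ v ∈ univ.filter (fun v => π v = a), x v =
      ∑ S ∈ (powersetCard s (univ : Finset V)).filter (fun S : Finset V => Set.InjOn π (S : Set V)),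
        ∏ v ∈ S, x v := by
  classical
  rw [← Finset.sum_fiberwise_of_maps_to (g := fun S : Finset V => S.image π)
    (t := powersetCard s (univ : Finset A))]
  · refine Finset.sum_congr rfl fun I hI => ?_
    rw [Finset.prod_sum]
    have hπ : ∀ p ∈ I.pi (fun a => univ.filter (fun v => π v = a)), ∀ a (ha : a ∈ I),
        π (p a ha) = a := by
      intro p hp a ha
      have := Finset.mem_pi.1 hp a ha
      exact (Finset.mem_filter.1 this).2
    have hinj : ∀ p ∈ I.pi (fun a => univ.filter (fun v => π v = a)),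
        Function.Injective (fun a : {a // a ∈ I} => p a.1 a.2) := by
      intro p hp a b hab
      have h1 := hπ p hp a.1 a.2
      have h2 := hπ p hp b.1 b.2
      simp only at hab
      rw [hab, h2] at h1
      exact Subtype.ext h1.symm
    refine Finset.sum_bij (fun p _ => I.attach.image (fun a => p a.1 a.2)) ?_ ?_ ?_ ?_
    · intro p hp
      simp only [Finset.mem_filter, Finset.mem_powersetCard]
      refine ⟨⟨⟨Finset.subset_univ _, ?_⟩, ?_⟩, ?_⟩
      · rw [Finset.card_image_of_injective _ (hinj p hp), Finset.card_attach]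
        exact (Finset.mem_powersetCard.1 hI).2
      · intro v hv w hw hvw
        simp only [Finset.coe_image, Set.mem_image, Finset.mem_coe, Finset.mem_attach,
          true_and] at hv hw
        obtain ⟨a, rfl⟩ := hv
        obtain ⟨b, rfl⟩ := hw
        rw [hπ p hp, hπ p hp] at hvw
        have : a = b := Subtype.ext hvw
        rw [this]
      · ext a
        simp only [Finset.mem_image, Finset.mem_attach, true_and]
        constructor
        · rintro ⟨v, ⟨b, rfl⟩, rfl⟩
          rw [hπ p hp]
          exact b.2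
        · intro ha
          exact ⟨p a ha, ⟨⟨a, ha⟩, rfl⟩, hπ p hp a ha⟩
    · intro p hp q hq hpq
      funext a ha
      have : p a ha ∈ I.attach.image (fun a => q a.1 a.2) := by
        rw [← hpq]
        exact Finset.mem_image.2 ⟨⟨a, ha⟩, Finset.mem_attach _ _, rfl⟩
      obtain ⟨b, -, hb⟩ := Finset.mem_image.1 this
      have h1 := hπ p hp a ha
      have h2 := hπ q hq b.1 b.2
      rw [hb, h1] at h2
      obtain ⟨b, hbI⟩ := b
      simp only at h2 hb
      subst h2
      exact hb.symm
    · intro S hS
      simp only [Finset.mem_filter, Finset.mem_powersetCard] at hS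
      obtain ⟨⟨⟨-, hcard⟩, hSi⟩, hSI⟩ := hS
      have hex : ∀ a ∈ I, ∃ v ∈ S, π v = a := by
        intro a ha
        rw [← hSI] at ha
        obtain ⟨v, hv, hva⟩ := Finset.mem_image.1 ha
        exact ⟨v, hv, hva⟩
      choose p hp hp' using hex
      refine ⟨p, ?_, ?_⟩
      · exact Finset.mem_pi.2 fun a ha => Finset.mem_filter.2 ⟨Finset.mem_univ _, hp' a ha⟩
      · ext v
        simp only [Finset.mem_image, Finset.mem_attach, true_and]
        constructor
        · rintro ⟨a, rfl⟩
          exact hp a.1 a.2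
        · intro hv
          have hvI : π v ∈ I := by rw [← hSI]; exact Finset.mem_image_of_mem _ hv
          exact ⟨⟨π v, hvI⟩, hSi (hp _ hvI) hv (hp' _ hvI)⟩
    · intro p hp
      rw [Finset.prod_image]
      intro a _ b _ hab
      exact hinj p hp hab
  · intro S hS
    simp only [Finset.mem_filter, Finset.mem_powersetCard] at hS
    rw [Finset.mem_powersetCard]
    exact ⟨Finset.subset_univ _, by rw [Finset.card_image_of_injOn hS.2]; exact hS.1.2⟩

section

variable {F : Type} [Field F] {V A B : Type} [Fintype V] [DecidableEq V] [Fintype A]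
  [DecidableEq A] [Fintype B] [DecidableEq B]

theorem degree_prod_le (T : Finset V) : (∏ v ∈ T, (X v : MvPolynomial V F)).totalDegree ≤ T.card := by
  refine (totalDegree_finsetProd _ _).trans ?_
  refine (Finset.sum_le_sum (fun v _ => (totalDegree_X (R := F) v).le)).trans ?_
  simp

theorem mul_prod_mem (W : Submodule F (MvPolynomial V F)) (s : ℕ)
    (hW : ∀ f ∈ W, ∀ v, (X v * f).totalDegree ≤ s → X v * f ∈ W) (g : MvPolynomial V F)
    (hg : g ∈ W) (T : Finset V) (hT : T.card + g.totalDegree ≤ s) :
    (∏ v ∈ T, X v) * g ∈ W := by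
  classical
  induction T using Finset.induction_on with
  | empty => simpa using hg
  | insert a T ha ih =>
    rw [Finset.card_insert_of_notMem ha] at hT
    rw [Finset.prod_insert ha, mul_assoc]
    apply hW _ (ih (by omega))
    refine (totalDegree_mul _ _).trans ?_
    rw [totalDegree_X]
    have h1 := totalDegree_mul (∏ v ∈ T, (X v : MvPolynomial V F)) g
    have h2 := degree_prod_le (F := F) T
    omega

/-- one side : the elementary symmetric polynomial of the fibre sums is a binomial coefficient -/
theorem side (W : Submodule F (MvPolynomial V F)) (s : ℕ)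
    (hW : ∀ f ∈ W, ∀ v, (X v * f).totalDegree ≤ s → X v * f ∈ W) (π : V → A)
    (hax : ∀ a, 1 ≤ s → (1 : MvPolynomial V F) - ∑ v ∈ univ.filter (fun v => π v = a), X v ∈ W) :
    (∑ S ∈ (powersetCard s (univ : Finset V)).filter (fun S : Finset V => Set.InjOn π (S : Set V)),
        ∏ v ∈ S, X v) - (((Fintype.card A).choose s : ℕ) : MvPolynomial V F) ∈ W := by
  classical
  have hprod : ∀ I : Finset A, I.card ≤ s →
      (∏ a ∈ I, ∑ v ∈ univ.filter (fun v => π v = a), (X v : MvPolynomial V F)) - 1 ∈ W ∧
      ((∏ a ∈ I, ∑ v ∈ univ.filter (fun v => π v = a), (X v : MvPolynomial V F)) - 1).totalDegree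
        ≤ I.card := by
    intro I
    induction I using Finset.induction_on with
    | empty => intro _; simp
    | insert a I ha ih =>
      intro hI
      rw [Finset.card_insert_of_notMem ha] at hI ⊢
      obtain ⟨ih1, ih2⟩ := ih (by omega)
      have e : (∏ a ∈ insert a I, ∑ v ∈ univ.filter (fun v => π v = a),
          (X v : MvPolynomial V F)) - 1 =
          ∑ v ∈ univ.filter (fun v => π v = a), X v *
            ((∏ a ∈ I, ∑ v ∈ univ.filter (fun v => π v = a), (X v : MvPolynomial V F)) - 1) -
          (1 - ∑ v ∈ univ.filter (fun v => π v = a), X v) := by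
        rw [Finset.prod_insert ha, ← Finset.sum_mul]
        ring
      rw [e]
      have hd : ∀ v, (X v * ((∏ a ∈ I, ∑ v ∈ univ.filter (fun v => π v = a),
          (X v : MvPolynomial V F)) - 1)).totalDegree ≤ I.card + 1 := by
        intro v
        refine (totalDegree_mul _ _).trans ?_
        rw [totalDegree_X]
        omega
      constructor
      · refine Submodule.sub_mem _ (Submodule.sum_mem _ fun v _ => ?_) (hax a (by omega))
        exact hW _ ih1 v ((hd v).trans hI)
      · refine (totalDegree_sub _ _).trans (max_le ?_ ?_)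
        · exact totalDegree_finsetSum_le fun v _ => hd v
        · refine (totalDegree_sub _ _).trans (max_le ?_ ?_)
          · rw [totalDegree_one]; omega
          · refine totalDegree_finsetSum_le fun v _ => ?_
            rw [totalDegree_X]; omega
  rw [← esymm_fib π (fun v => (X v : MvPolynomial V F)) s]
  have e : (((Fintype.card A).choose s : ℕ) : MvPolynomial V F) =
      ∑ I ∈ powersetCard s (univ : Finset A), 1 := by
    rw [Finset.sum_const, Finset.card_powersetCard, Finset.card_univ, nsmul_eq_mul, mul_one]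
  rw [e, ← Finset.sum_sub_distrib]
  refine Submodule.sum_mem _ fun I hI => ?_
  exact (hprod I (Finset.mem_powersetCard.1 hI).2.le).1

/-- sets which are not injective for the other side are small -/
theorem bad (W : Submodule F (MvPolynomial V F)) (s : ℕ)
    (hW : ∀ f ∈ W, ∀ v, (X v * f).totalDegree ≤ s → X v * f ∈ W) (π : V → A)
    (hax : ∀ v w, v ≠ w → π v = π w → 2 ≤ s → (X v * X w : MvPolynomial V F) ∈ W)
    (S : Finset V) (hS : S.card = s) (hSi : ¬ Set.InjOn π (S : Set V)) :
    ∏ v ∈ S, (X v : MvPolynomial V F) ∈ W := by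
  classical
  unfold Set.InjOn at hSi
  push Not at hSi
  obtain ⟨v, hv, w, hw, hvw, hne⟩ := hSi
  have hv' : v ∈ S := hv
  have hw' : w ∈ S.erase v := Finset.mem_erase.2 ⟨hne.symm, hw⟩
  have hc1 : (S.erase v).card = S.card - 1 := Finset.card_erase_of_mem hv'
  have hc2 : ((S.erase v).erase w).card = (S.erase v).card - 1 := Finset.card_erase_of_mem hw'
  have hpos : 0 < (S.erase v).card := Finset.card_pos.2 ⟨w, hw'⟩
  have e : ∏ v ∈ S, (X v : MvPolynomial V F) =
      (∏ u ∈ (S.erase v).erase w, X u) * (X v * X w) := by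
    rw [← Finset.mul_prod_erase S _ hv', ← Finset.mul_prod_erase (S.erase v) _ hw']
    ring
  rw [e]
  refine mul_prod_mem W s hW _ (hax v w hne hvw (by omega)) _ ?_
  have : (X v * X w : MvPolynomial V F).totalDegree ≤ 2 := by
    refine (totalDegree_mul _ _).trans ?_
    rw [totalDegree_X, totalDegree_X]
  omega

/-- both sides -/
theorem both (W : Submodule F (MvPolynomial V F)) (s : ℕ) (hs : 1 ≤ s)
    (hW : ∀ f ∈ W, ∀ v, (X v * f).totalDegree ≤ s → X v * f ∈ W) (π : V → A) (ρ : V → B)
    (h1 : ∀ a, (1 : MvPolynomial V F) - ∑ v ∈ univ.filter (fun v => π v = a), X v ∈ W)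
    (h2 : ∀ b, (1 : MvPolynomial V F) - ∑ v ∈ univ.filter (fun v => ρ v = b), X v ∈ W)
    (h3 : ∀ v w, v ≠ w → π v = π w → 2 ≤ s → (X v * X w : MvPolynomial V F) ∈ W)
    (h4 : ∀ v w, v ≠ w → ρ v = ρ w → 2 ≤ s → (X v * X w : MvPolynomial V F) ∈ W) :
    (((Fintype.card A).choose s : ℕ) : MvPolynomial V F) -
      (((Fintype.card B).choose s : ℕ) : MvPolynomial V F) ∈ W := by
  classical
  have s1 := side W s hW π (fun a _ => h1 a)
  have s2 := side W s hW ρ (fun b _ => h2 b)
  set P := powersetCard s (univ : Finset V)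
  have k1 : (∑ S ∈ P.filter (fun S : Finset V => Set.InjOn π (S : Set V)), ∏ v ∈ S,
      (X v : MvPolynomial V F)) - ∑ S ∈ P.filter (fun S : Finset V => Set.InjOn π (S : Set V) ∧
        Set.InjOn ρ (S : Set V)), ∏ v ∈ S, X v ∈ W := by
    rw [← Finset.sum_filter_add_sum_filter_not (P.filter (fun S : Finset V => Set.InjOn π (S : Set V)))
      (fun S : Finset V => Set.InjOn ρ (S : Set V)), Finset.filter_filter, add_sub_cancel_left]
    refine Submodule.sum_mem _ fun S hS => ?_
    simp only [Finset.mem_filter] at hS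
    exact bad W s hW ρ h4 S (Finset.mem_powersetCard.1 hS.1.1).2 hS.2
  have k2 : (∑ S ∈ P.filter (fun S : Finset V => Set.InjOn ρ (S : Set V)), ∏ v ∈ S,
      (X v : MvPolynomial V F)) - ∑ S ∈ P.filter (fun S : Finset V => Set.InjOn π (S : Set V) ∧
        Set.InjOn ρ (S : Set V)), ∏ v ∈ S, X v ∈ W := by
    rw [← Finset.sum_filter_add_sum_filter_not (P.filter (fun S : Finset V => Set.InjOn ρ (S : Set V)))
      (fun S : Finset V => Set.InjOn π (S : Set V)), Finset.filter_filter]
    have e : P.filter (fun S : Finset V => Set.InjOn ρ (S : Set V) ∧ Set.InjOn π (S : Set V)) =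
        P.filter (fun S : Finset V => Set.InjOn π (S : Set V) ∧ Set.InjOn ρ (S : Set V)) := by
      refine Finset.filter_congr fun S _ => ?_
      exact and_comm
    rw [e, add_sub_cancel_left]
    refine Submodule.sum_mem _ fun S hS => ?_
    simp only [Finset.mem_filter] at hS
    exact bad W s hW π h3 S (Finset.mem_powersetCard.1 hS.1.1).2 hS.2
  have := Submodule.sub_mem _ (Submodule.add_mem _ s2 k1) (Submodule.add_mem _ s1 k2)
  convert this using 1
  ring

end

/-- Lucas : `C(N, p^v)` is `N / p^v` modulo `p` -/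
theorem choose_pow_modEq (p : ℕ) [Fact p.Prime] (v : ℕ) : ∀ N : ℕ,
    N.choose (p ^ v) ≡ N / p ^ v [MOD p] := by
  have hp : p.Prime := Fact.out
  induction v with
  | zero => intro N; simp [Nat.ModEq]
  | succ v ih =>
    intro N
    have h1 := Choose.choose_modEq_choose_mod_mul_choose_div_nat (n := N) (k := p ^ (v + 1)) (p := p)
    have e1 : p ^ (v + 1) % p = 0 := Nat.mod_eq_zero_of_dvd (dvd_pow_self p (Nat.succ_ne_zero v))
    have e2 : p ^ (v + 1) / p = p ^ v := by
      rw [pow_succ, Nat.mul_div_cancel _ hp.pos]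
    rw [e1, e2, Nat.choose_zero_right, one_mul] at h1
    refine h1.trans ((ih (N / p)).trans ?_)
    rw [Nat.div_div_eq_div_mul, ← pow_succ']

theorem choose_ne (p : ℕ) [Fact p.Prime] (F : Type) [Field F] [CharP F p] (n v u : ℕ)
    (hu : ¬ p ∣ u) :
    (((n + p ^ v * u).choose (p ^ v) : ℕ) : F) - ((n.choose (p ^ v) : ℕ) : F) ≠ 0 := by
  have hp : p.Prime := Fact.out
  have h1 := choose_pow_modEq p v (n + p ^ v * u)
  have h2 := choose_pow_modEq p v n
  rw [Nat.add_mul_div_left _ _ (pow_pos hp.pos v)] at h1
  have c1 : (((n + p ^ v * u).choose (p ^ v) : ℕ) : F) = ((n / p ^ v + u : ℕ) : F) :=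
    (CharP.natCast_eq_natCast F p).2 h1
  have c2 : ((n.choose (p ^ v) : ℕ) : F) = ((n / p ^ v : ℕ) : F) :=
    (CharP.natCast_eq_natCast F p).2 h2
  rw [c1, c2, Nat.cast_add, add_sub_cancel_left]
  intro h
  exact hu ((CharP.cast_eq_zero_iff F p u).1 h)

end Pool.Agent.OntoQ
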